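import Pool.Agent.Q181.PC.Upper
import Pool.Agent.Q181.PC.Lower

/-!
# Every positive integer is the polychromatic number of a subgraph of a hypercube

Definitions (in `Pool.Agent.Q181.PC.Defs`): `cube n` is the hypercube `Q_n` on `Fin n → Bool`; a copy of `G` in
`Q_n` is an injective homomorphism (`SimpleGraph.Copy`); `Polychromatic G χ` says that every copy of `G` contains
an edge of each of the `r` colours of `χ : E(Q_n) → Fin r`; `IsPolychromaticNumber G r` says that `r` is the
largest number `≥ 1` such that for every `n ≥ 1` there is a `G`-polychromatic colouring of `Q_n` with `r` colours.

The graph with `p(G) = r` is the subgraph of `Q_r` in which the coordinate `j` of a vertex `w` may be changed iff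
all later coordinates of `w` are `0` or all earlier coordinates are `1`.

Lower bound: chains of `4`-cycles show that in a copy of `G` all edges of one direction are parallel, hence the
copy spans a subcube of dimension `r`; it contains all edges of the first direction of this subcube, which lie on
`r` consecutive levels; colour the edges by their levels modulo `r`.

Upper bound: by Ramsey's theorem the colour of an edge of a large subcube only depends on its level and on the
number of ones before its free coordinate.  In the embedding which keeps the order of the coordinates the edges
of each direction `j` of `G` use exactly one such pair on each of `r` levels, and the position of the pairs of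
each direction can be moved along the levels.  If there are more than `r` colours, some colour can be avoided in
all the directions, by counting.
-/

set_option autoImplicit false

namespace Pool.Agent.Results.MP_61c2aa_co.EveryValue

open Pool.Agent.Q181.PC

/-- **Every integer is a polychromatic number.**  For every `r ≥ 1` there is a subgraph `G` of the hypercube
`Q_r`, with at least one edge, whose polychromatic number is `r`. -/
theorem result (r : ℕ) (hr : 1 ≤ r) : ∃ G : SimpleGraph (Fin r → Bool), G ≤ cube r ∧ (∃ u v, G.Adj u v) ∧
    IsPolychromaticNumber G r := by
  refine ⟨gr r, ?_, ?_, ⟨hr, fun n _ => ⟨lev n r hr, lower hr n⟩⟩, ?_⟩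
  · rintro w w' ⟨j, h1, h2, _⟩
    refine ⟨j, h1, ?_⟩
    intro i hi
    by_contra hcon
    exact hi (h2 i hcon)
  · refine ⟨fun _ => false, fl ⟨0, hr⟩ (fun _ => false), ⟨0, hr⟩, ?_, ?_, Or.inl fun _ _ => rfl⟩
    · rw [fl_same]; simp
    · intro i hi
      rw [fl_ne hi]
  · rintro s ⟨_, hs⟩
    by_contra hcon
    exact upper (by omega) hs

end Pool.Agent.Results.MP_61c2aa_co.EveryValue
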